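import Pool.Agent.Run7.h987.RT.Iface

/-!
# Piece D1: density of the points which lie in no block of weight one (helper108)
-/

set_option autoImplicit false
set_option maxHeartbeats 1000000

open MeasureTheory Set
open scoped Topology ENNReal

noncomputable section

namespace Pool.Agent.Run7.h108.RT

open Pool.Agent.Run7.h987.BL Pool.Agent.Run7.h987.RT

variable {k : ℕ}

/-- norm bound by coordinates -/
lemma norm_le_coord {c : ℝ} (hc : 0 ≤ c) (v : E k) (h : ∀ i, |v i| ≤ c) : ‖v‖ ≤ c * k := by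
  rw [EuclideanSpace.norm_eq]
  refine Real.sqrt_le_iff.2 ⟨by positivity, ?_⟩
  have h1 : ∑ i, ‖v i‖ ^ 2 ≤ ∑ _i : Fin k, c ^ 2 := by
    refine Finset.sum_le_sum fun i _ => ?_
    rw [Real.norm_eq_abs]
    exact pow_le_pow_left₀ (abs_nonneg _) (h i) 2
  refine h1.trans ?_
  rw [Finset.sum_const, Finset.card_univ, Fintype.card_fin, nsmul_eq_mul]
  have h2 : (k : ℝ) ≤ (k : ℝ) ^ 2 := by
    rcases Nat.eq_zero_or_pos k with h0 | h0
    · subst h0
      norm_num
    · have : (1 : ℝ) ≤ k := by exact_mod_cast h0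
      nlinarith
  have h3 : 0 ≤ c ^ 2 := sq_nonneg c
  nlinarith

lemma cont_coord (i : Fin k) : Continuous fun t : E k => t i := by fun_prop

/-- coordinatewise floor -/
def flr (t : E k) : Zk k := fun i => ⌊t i⌋

/-- the block index of the integer point `q` in the tile `n` -/
def bix (N1 : ℕ) (n q : Zk k) : Zk k := fun i => (q i - n i) / (N1 : ℤ)

lemma inBlk_bix {N1 : ℕ} (hN1 : 0 < N1) (n q : Zk k) : inBlk N1 n (bix N1 n q) q := by
  intro i
  have h0 : (0 : ℤ) < N1 := by exact_mod_cast hN1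
  have h1 := Int.emod_add_mul_ediv (q i - n i) (N1 : ℤ)
  have h2 := Int.emod_nonneg (q i - n i) h0.ne'
  have h3 := Int.emod_lt_of_pos (q i - n i) h0
  unfold bix
  constructor
  · linarith
  · linarith

/-- a point of the unit cube of an integer point of a block is close to the base of the block -/
lemma near_base {N1 : ℕ} {n b : Zk k} {t : E k} (h : inBlk N1 n b (flr t)) :
    ‖(vec n + (N1 : ℝ) • vec b) - t‖ ≤ N1 * k := by
  refine norm_le_coord (Nat.cast_nonneg _) _ fun i => ?_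
  have h1 : ((vec n + (N1 : ℝ) • vec b : E k) - t) i = (n i : ℝ) + N1 * b i - t i := by
    simp
  rw [h1, abs_le]
  obtain ⟨h2, h3⟩ := h i
  have h4 : (⌊t i⌋ : ℝ) ≤ t i := Int.floor_le _
  have h5 : t i < ⌊t i⌋ + 1 := Int.lt_floor_add_one _
  have h6 : (0 : ℝ) ≤ (⌊t i⌋ : ℝ) - n i - N1 * b i := by exact_mod_cast h2
  have h7 : ((⌊t i⌋ : ℝ) - n i - N1 * b i) + 1 ≤ N1 := by
    have : (⌊t i⌋ - n i - N1 * b i) + 1 ≤ (N1 : ℤ) := by
      have := h3
      unfold flr at this
      omega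
    exact_mod_cast this
  constructor <;> linarith

lemma near_base' {N1 : ℕ} {n b n' b' q : Zk k} (h : inBlk N1 n b q) (h' : inBlk N1 n' b' q) :
    ‖(vec n + (N1 : ℝ) • vec b : E k) - (vec n' + (N1 : ℝ) • vec b')‖ ≤ N1 * k := by
  refine norm_le_coord (Nat.cast_nonneg _) _ fun i => ?_
  have h1 : ((vec n + (N1 : ℝ) • vec b : E k) - (vec n' + (N1 : ℝ) • vec b')) i =
      (n i : ℝ) + N1 * b i - (n' i + N1 * b' i) := by
    simp
  rw [h1, abs_le]
  obtain ⟨h2, h3⟩ := h i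
  obtain ⟨h4, h5⟩ := h' i
  have h6 : (0 : ℝ) ≤ (q i : ℝ) - n i - N1 * b i := by exact_mod_cast h2
  have h7 : (q i : ℝ) - n i - N1 * b i < N1 := by exact_mod_cast h3
  have h8 : (0 : ℝ) ≤ (q i : ℝ) - n' i - N1 * b' i := by exact_mod_cast h4
  have h9 : (q i : ℝ) - n' i - N1 * b' i < N1 := by exact_mod_cast h5
  constructor <;> linarith

/-- the scaling factor of the tile -/
def sc (a : Zk k → ℝ) (s H : ℝ) (n : Zk k) : ℝ := (ht (a n) + s * H) / (ht (a n) + H)

/-- the scaled point -/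
def sh (a : Zk k → ℝ) (s H : ℝ) (n : Zk k) (t : E k) : E k :=
  AffineMap.homothety (vec n : E k) (sc a s H n) t

lemma sh_eq (a : Zk k → ℝ) (s H : ℝ) (n : Zk k) (t : E k) :
    sh a s H n t = vec n + sc a s H n • (t - vec n) := by
  unfold sh
  rw [AffineMap.homothety_apply, vsub_eq_sub, vadd_eq_add, add_comm]

/-- the part of the cell of `n` -/
def cel (a : Zk k → ℝ) (Rb : ℕ) (L H : ℝ) (A : Set (E k)) (n : Zk k) : Set (E k) :=
  {t | t ∈ A ∧ 0 < a n ∧ ‖t - vec n‖ ≤ L ∧ ∀ m ∈ nb Rb n, 0 < a m → 0 ≤ marg a H n m t}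

lemma key (h2 : P_SCALE) (h3 : P_WTB) {N1 : ℕ} {θ s : ℝ} (hN1 : 0 < N1)
    (hs0 : 0 < s) (hs1 : s < 1) {N L H Λ : ℝ} {Rb : ℕ} {a : Zk k → ℝ}
    (hN : 4 * (θ + 2 + N1 * k) / (1 - s) ≤ N) (hNp : 0 < N) (hL : 0 ≤ L) (hθ : 0 ≤ θ)
    (ha : Cfg N L a) (hH : L + 2 ≤ H) (hΛ : L + 2 + N1 * k ≤ Λ) (hRb : 2 * Λ + 2 * θ ≤ Rb)
    {n : Zk k} {t : E k} (hn : 0 < a n) (htn : ‖t - vec n‖ ≤ L)
    (hm : ∀ m ∈ nb Rb n, 0 < a m → 0 ≤ marg a H n m t) :
    s ≤ sc a s H n ∧ sc a s H n < 1 ∧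
      wgt a Rb Λ (s * H) θ n ((N1 : ℝ) • vec (bix N1 n (flr (sh a s H n t)))) = 1 ∧
      ‖sh a s H n t - t‖ ≤ L := by
  have hNk : (0 : ℝ) ≤ N1 * k := by positivity
  have hRb' : (2 * L + 3 : ℝ) ≤ Rb := by linarith
  obtain ⟨s', e1, e2, e3, e4⟩ := h2 k N L H s Rb a hNp hL hH hs0 hs1 hRb' ha n t hn
    (by linarith) (fun m hm1 hm2 => by linarith [hm m hm1 hm2])
  have e5 : sc a s H n = s' := e1.symm
  have hs'0 : 0 < s' := lt_of_lt_of_le hs0 e2
  set t' := sh a s H n t with ht'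
  have e6 : t' = vec n + s' • (t - vec n) := by rw [ht', sh_eq, e5]
  set b := bix N1 n (flr t') with hb
  have hblk : inBlk N1 n b (flr t') := inBlk_bix hN1 n _
  have hv := near_base hblk
  set v : E k := (vec n + (N1 : ℝ) • vec b) - t' with hvd
  have hv2 : vec n + (N1 : ℝ) • vec b = vec n + s' • (t - vec n) + v := by
    rw [hvd, e6]
    abel
  have hnorm : ‖s' • (t - vec n)‖ ≤ L := by
    rw [norm_smul, Real.norm_eq_abs, abs_of_pos hs'0]
    nlinarith [norm_nonneg (t - vec n)]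
  refine ⟨e5 ▸ e2, e5 ▸ e3, ?_, ?_⟩
  · refine (h3 k a Rb Λ (s * H) θ n ((N1 : ℝ) • vec b)).2.2.1 hn.ne' ?_ ?_
    · have h5 : (N1 : ℝ) • vec b = s' • (t - vec n) + v := by
        have := hv2
        rw [add_assoc] at this
        exact add_left_cancel this
      rw [h5]
      calc ‖s' • (t - vec n) + v‖ ≤ ‖s' • (t - vec n)‖ + ‖v‖ := norm_add_le _ _
        _ ≤ L + N1 * k := add_le_add hnorm hv
        _ ≤ Λ := by linarith
    · intro m hm1 hm2
      have hm3 : 0 < a m := lt_of_le_of_ne (ha.nonneg m) (Ne.symm hm2)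
      have h6 := e4 m hm1 hm3 v
      rw [hv2]
      refine le_trans ?_ h6
      have h7 : 4 * (θ + 2 + N1 * k) ≤ (1 - s) * N := by
        rw [div_le_iff₀ (by linarith)] at hN
        linarith
      linarith
  · have h8 : t' - t = (-(1 - s')) • (t - vec n) := by
      rw [e6]
      module
    rw [h8, norm_smul, Real.norm_eq_abs, abs_neg, abs_of_pos (by linarith)]
    nlinarith [norm_nonneg (t - vec n)]

lemma volT (S : Set (E k)) (hS : MeasurableSet S) :
    volume ((WithLp.toLp 2 : (Fin k → ℝ) → E k) ⁻¹' S) = volume S :=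
  (PiLp.volume_preserving_toLp (Fin k)).measure_preimage hS.nullMeasurableSet

lemma vol_box (p : Zk k) (c d : ℝ) :
    volume {t : E k | ∀ i, (p i : ℝ) + c ≤ t i ∧ t i ≤ p i + d} = ENNReal.ofReal (d - c) ^ k := by
  have hm : MeasurableSet {t : E k | ∀ i, (p i : ℝ) + c ≤ t i ∧ t i ≤ p i + d} := by
    refine IsClosed.measurableSet ?_
    have : {t : E k | ∀ i, (p i : ℝ) + c ≤ t i ∧ t i ≤ p i + d} =
        ⋂ i, {t : E k | (p i : ℝ) + c ≤ t i ∧ t i ≤ p i + d} := by
      ext t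
      simp
    rw [this]
    refine isClosed_iInter fun i => ?_
    exact (isClosed_le continuous_const (cont_coord i)).inter
      (isClosed_le (cont_coord i) continuous_const)
  rw [← volT _ hm]
  have : (WithLp.toLp 2 : (Fin k → ℝ) → E k) ⁻¹'
      {t : E k | ∀ i, (p i : ℝ) + c ≤ t i ∧ t i ≤ p i + d} =
      Icc (fun i => (p i : ℝ) + c) (fun i => p i + d) := by
    ext t
    simp only [mem_preimage, mem_ofPred_eq, mem_Icc, Pi.le_def]
    exact ⟨fun h => ⟨fun i => (h i).1, fun i => (h i).2⟩, fun h i => ⟨h.1 i, h.2 i⟩⟩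
  rw [this, Real.volume_Icc_pi]
  simp

lemma vol_unit (q : Zk k) : volume {t : E k | flr t = q} = 1 := by
  have hset : {t : E k | flr t = q} = ⋂ i, {t : E k | (q i : ℝ) ≤ t i ∧ t i < q i + 1} := by
    ext t
    simp only [mem_ofPred_eq, mem_iInter]
    constructor
    · rintro rfl i
      exact ⟨Int.floor_le _, Int.lt_floor_add_one _⟩
    · intro h
      funext i
      exact Int.floor_eq_iff.2 (h i)
  have hm : MeasurableSet {t : E k | flr t = q} := by
    rw [hset]
    refine MeasurableSet.iInter fun i => ?_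
    exact (isClosed_le continuous_const (cont_coord i)).measurableSet.inter
      (isOpen_lt (cont_coord i) continuous_const).measurableSet
  rw [← volT _ hm]
  have : (WithLp.toLp 2 : (Fin k → ℝ) → E k) ⁻¹' {t : E k | flr t = q} =
      Set.pi univ fun i => Ico (q i : ℝ) (q i + 1) := by
    rw [hset]
    ext t
    simp
  rw [this, Real.volume_pi_Ico]
  simp

lemma isCompact_cel {a : Zk k → ℝ} {Rb : ℕ} {L H : ℝ} {A : Set (E k)} (hA : IsClosed A)
    (n : Zk k) : IsCompact (cel a Rb L H A n) := by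
  by_cases hn : 0 < a n
  · have hset : cel a Rb L H A n = (Metric.closedBall (vec n : E k) L) ∩
        (A ∩ ⋂ m ∈ nb Rb n, ⋂ (_ : 0 < a m), {t : E k | 0 ≤ marg a H n m t}) := by
      ext t
      simp only [cel, mem_ofPred_eq, mem_inter_iff, mem_iInter, Metric.mem_closedBall, dist_eq_norm]
      constructor
      · rintro ⟨h1, _, h3, h4⟩
        exact ⟨h3, h1, h4⟩
      · rintro ⟨h3, h1, h4⟩
        exact ⟨h1, hn, h3, h4⟩
    rw [hset]
    refine (isCompact_closedBall _ _).inter_right (hA.inter ?_)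
    refine isClosed_iInter fun m => isClosed_iInter fun _ => isClosed_iInter fun _ => ?_
    refine isClosed_le continuous_const ?_
    unfold marg
    fun_prop
  · have : cel a Rb L H A n = ∅ := by
      ext t
      simp only [cel, mem_ofPred_eq, mem_empty_iff_false, iff_false]
      exact fun h => hn h.2.1
    rw [this]
    exact isCompact_empty

lemma card_ibox (u : Zk k) (Q : ℕ) : (ibox u Q).card = Q ^ k := by
  unfold ibox
  rw [Pi.card_Icc]
  have : ∀ i, (Finset.Icc (u i) (u i + (Q : ℤ) - 1)).card = Q := by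
    intro i
    rw [Int.card_Icc]
    have : u i + (Q : ℤ) - 1 + 1 - u i = Q := by ring
    rw [this, Int.toNat_natCast]
  simp only [this]
  simp

lemma exists_Q0 {s δ c : ℝ} (hk : 1 - s ^ k < δ) : ∃ Q0 : ℕ, ∀ Q : ℕ, Q0 ≤ Q →
    2 * c ≤ Q ∧ (1 - δ) * (Q : ℝ) ^ k ≤ s ^ k * (Q - 2 * c) ^ k := by
  have h1 : Filter.Tendsto (fun Q : ℕ => s ^ k * (1 - 2 * c * ((Q : ℝ))⁻¹) ^ k) Filter.atTop
      (𝓝 (s ^ k * (1 - 2 * c * 0) ^ k)) :=
    ((tendsto_const_nhds.sub (tendsto_const_nhds.mul tendsto_inv_atTop_nhds_zero_nat)).pow k).const_mul _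
  have h2 : (1 - δ) < s ^ k * (1 - 2 * c * 0) ^ k := by
    rw [mul_zero, sub_zero, one_pow, mul_one]
    linarith
  have h3 := h1.eventually (lt_mem_nhds h2)
  have h4 : ∀ᶠ Q : ℕ in Filter.atTop, 2 * c ≤ (Q : ℝ) :=
    tendsto_natCast_atTop_atTop.eventually_ge_atTop _
  obtain ⟨Q0, hQ0⟩ := Filter.eventually_atTop.1 ((h3.and h4).and (Filter.eventually_gt_atTop 0))
  refine ⟨Q0, fun Q hQ => ?_⟩
  obtain ⟨⟨h5, h6⟩, h7⟩ := hQ0 Q hQ
  refine ⟨h6, ?_⟩
  have h8 : (0 : ℝ) < Q := by exact_mod_cast h7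
  have h9 : (Q - 2 * c : ℝ) = (1 - 2 * c * (Q : ℝ)⁻¹) * Q := by
    field_simp
  rw [h9, mul_pow, ← mul_assoc]
  exact mul_le_mul_of_nonneg_right h5.le (by positivity)

/-- **D1** -/
theorem t_D1 (h1 : P_COVER) (h2 : P_SCALE) (h3 : P_WTB) (h4 : P_WTS) : P_D1 := by
  intro k N1 θ s δ hk hN1 hθ hs0 hs1 hδ
  have hkr : (0 : ℝ) < k := by exact_mod_cast hk
  have hN1r : (0 : ℝ) < N1 := by exact_mod_cast hN1
  have hNk : (0 : ℝ) < N1 * k := mul_pos hN1r hkr
  have hθ0 : 0 < θ := lt_of_lt_of_le hNk hθ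
  refine ⟨4 * (θ + 2 + N1 * k) / (1 - s), ?_, ?_⟩
  · exact div_pos (by linarith) (by linarith)
  intro N L hN hL
  have hNp : 0 < N := lt_of_lt_of_le (div_pos (by linarith) (by linarith)) hN
  obtain ⟨Q0, hQ0⟩ := exists_Q0 (k := k) (s := s) (δ := δ) (c := L + 1) hδ
  refine ⟨Q0, ?_⟩
  intro H Λ Rb a ha hH hΛ hRb Q hQ u bad hbad hbadw
  obtain ⟨hQ1, hQ2⟩ := hQ0 Q hQ
  have hH0 : 0 < H := by linarith
  set A : Set (E k) := {t : E k | ∀ i, (u i : ℝ) + (L + 1) ≤ t i ∧ t i ≤ u i + (Q - (L + 1))} with hA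
  have hAcl : IsClosed A := by
    have : A = ⋂ i, {t : E k | (u i : ℝ) + (L + 1) ≤ t i ∧ t i ≤ u i + (Q - (L + 1))} := by
      ext t
      simp [hA]
    rw [this]
    refine isClosed_iInter fun i => ?_
    exact (isClosed_le continuous_const (cont_coord i)).inter
      (isClosed_le (cont_coord i) continuous_const)
  have hAvol : volume A = ENNReal.ofReal (Q - 2 * (L + 1)) ^ k := by
    rw [hA, vol_box]
    congr 2
    ring
  set C : Zk k → Set (E k) := fun n => cel a Rb L H A n with hC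
  -- the cells cover
  have hcov : A ⊆ ⋃ n, C n := by
    intro t htA
    obtain ⟨n, hn1, hn2, hn3⟩ := h1 k N L H a hNp hL hH0 ha t
    refine mem_iUnion.2 ⟨n, htA, hn1, hn2, fun m hm hma => hn3 m ?_ hma⟩
    rintro rfl
    exact (Finset.mem_erase.1 hm).1 rfl
  -- the key facts on the cells
  have hkey : ∀ n t, t ∈ C n → s ≤ sc a s H n ∧ sc a s H n < 1 ∧
      wgt a Rb Λ (s * H) θ n ((N1 : ℝ) • vec (bix N1 n (flr (sh a s H n t)))) = 1 ∧
      ‖sh a s H n t - t‖ ≤ L := by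
    rintro n t ⟨_, h6, h7, h8⟩
    exact key h2 h3 hN1 hs0 hs1 hN hNp hL hθ0.le ha hH hΛ hRb h6 h7 h8
  set D : Zk k → Set (E k) := fun n => (sh a s H n) '' C n with hD
  have hDm : ∀ n, MeasurableSet (D n) := by
    intro n
    refine IsCompact.measurableSet ((isCompact_cel hAcl n).image ?_)
    exact (AffineMap.homothety (vec n : E k) (sc a s H n)).continuous_of_finiteDimensional
  have hDvol : ∀ n, ENNReal.ofReal s ^ k * volume (C n) ≤ volume (D n) := by
    intro n
    rcases (C n).eq_empty_or_nonempty with h5 | ⟨t, h5⟩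
    · simp [h5]
    · obtain ⟨h6, _, _, _⟩ := hkey n t h5
      have h7 : volume (D n) = ENNReal.ofReal |sc a s H n ^ k| * volume (C n) := by
        have := Measure.addHaar_image_homothety (volume : Measure (E k)) (vec n : E k)
          (sc a s H n) (C n)
        rw [finrank_euclideanSpace, Fintype.card_fin] at this
        exact this
      rw [h7, ← ENNReal.ofReal_pow hs0.le]
      refine mul_le_mul_left ?_ _
      refine ENNReal.ofReal_le_ofReal ?_
      rw [abs_of_nonneg (pow_nonneg (hs0.le.trans h6) _)]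
      exact pow_le_pow_left₀ hs0.le h6 k
  have hdisj : Pairwise (Function.onFun Disjoint D) := by
    intro n n' hnn
    rw [Function.onFun, Set.disjoint_left]
    rintro y ⟨t, h5, rfl⟩ ⟨t', h6, h7⟩
    obtain ⟨_, _, h8, _⟩ := hkey n t h5
    obtain ⟨_, _, h9, _⟩ := hkey n' t' h6
    rw [h7] at h9
    have h10 := h4 k a Rb Λ (s * H) θ n n' _ _ hθ0.le hRb hnn (by rw [h8]; exact one_pos)
      (by rw [h9]; exact one_pos)
    have h11 := near_base' (inBlk_bix hN1 n (flr (sh a s H n t)))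
      (inBlk_bix hN1 n' (flr (sh a s H n t)))
    linarith
  have hsub : (⋃ n, D n) ⊆ ⋃ q ∈ ibox u Q \ bad, {t : E k | flr t = q} := by
    intro y hy
    obtain ⟨n, t, h5, rfl⟩ := mem_iUnion.1 hy
    obtain ⟨_, _, h8, h9⟩ := hkey n t h5
    have h10 : ∀ i, |sh a s H n t i - t i| ≤ L := fun i =>
      (PiLp.norm_apply_le (sh a s H n t - t) i).trans h9
    refine mem_iUnion₂.2 ⟨flr (sh a s H n t), ?_, rfl⟩
    rw [Finset.mem_sdiff]
    constructor
    · rw [ibox, Finset.mem_Icc, Pi.le_def, Pi.le_def]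
      have h11 := h5.1
      constructor
      · intro i
        obtain ⟨h12, h13⟩ := h11 i
        have h14 := abs_le.1 (h10 i)
        show u i ≤ ⌊sh a s H n t i⌋
        rw [Int.le_floor]
        linarith
      · intro i
        obtain ⟨h12, h13⟩ := h11 i
        have h14 := abs_le.1 (h10 i)
        show ⌊sh a s H n t i⌋ ≤ u i + (Q : ℤ) - 1
        have h15 : ⌊sh a s H n t i⌋ < u i + (Q : ℤ) := by
          rw [Int.floor_lt]
          push_cast
          linarith
        omega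
    · intro h11
      have h12 := hbadw _ h11 n _ (inBlk_bix hN1 n (flr (sh a s H n t)))
      rw [h8] at h12
      exact lt_irrefl _ h12
  have hmain : ENNReal.ofReal s ^ k * ENNReal.ofReal (Q - 2 * (L + 1)) ^ k ≤
      ((ibox u Q \ bad).card : ℝ≥0∞) := by
    calc ENNReal.ofReal s ^ k * ENNReal.ofReal (Q - 2 * (L + 1)) ^ k
        = ENNReal.ofReal s ^ k * volume A := by rw [hAvol]
      _ ≤ ENNReal.ofReal s ^ k * ∑' n, volume (C n) := by
          refine mul_le_mul_right ((measure_mono hcov).trans (measure_iUnion_le _)) _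
      _ = ∑' n, ENNReal.ofReal s ^ k * volume (C n) := ENNReal.tsum_mul_left.symm
      _ ≤ ∑' n, volume (D n) := ENNReal.tsum_le_tsum hDvol
      _ = volume (⋃ n, D n) := (measure_iUnion hdisj hDm).symm
      _ ≤ volume (⋃ q ∈ ibox u Q \ bad, {t : E k | flr t = q}) := measure_mono hsub
      _ ≤ ∑ q ∈ ibox u Q \ bad, volume {t : E k | flr t = q} := measure_biUnion_finset_le _ _
      _ = ((ibox u Q \ bad).card : ℝ≥0∞) := by
          simp [vol_unit]
  have hreal : s ^ k * (Q - 2 * (L + 1)) ^ k ≤ ((ibox u Q \ bad).card : ℝ) := by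
    have h5 : (0 : ℝ) ≤ Q - 2 * (L + 1) := by linarith
    rw [← ENNReal.ofReal_pow hs0.le, ← ENNReal.ofReal_pow h5, ← ENNReal.ofReal_mul (by positivity),
      ← ENNReal.ofReal_natCast, ENNReal.ofReal_le_ofReal_iff (Nat.cast_nonneg _)] at hmain
    exact hmain
  have hcard : ((ibox u Q \ bad).card : ℝ) + bad.card = (Q : ℝ) ^ k := by
    have h5 := Finset.card_sdiff_add_card_eq_card hbad
    rw [card_ibox] at h5
    exact_mod_cast h5
  linarith

end Pool.Agent.Run7.h108.RT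

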